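import Mathlib

set_option linter.unusedVariables false

open Finset Classical

namespace Pool.Agent.Results.MP_dc922b_co.UprootedSpherical

section PF
variable {ι : Type} [Fintype ι] [DecidableEq ι]

/-- Functions with values in `A` on `S` and equal to `0` off `S`. -/
def Fs (S : Finset ι) (A : Finset ℕ) : Finset (ι → ℕ) :=
  Fintype.piFinset (fun j => if j ∈ S then A else {0})

lemma mem_Fs {S : Finset ι} {A : Finset ℕ} {b : ι → ℕ} :
    b ∈ Fs S A ↔ (∀ j ∈ S, b j ∈ A) ∧ (∀ j, j ∉ S → b j = 0) := by
  simp only [Fs, Fintype.mem_piFinset]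
  constructor
  · intro h
    refine ⟨fun j hj => by simpa [hj] using h j, fun j hj => by simpa [hj] using h j⟩
  · rintro ⟨h1, h2⟩ j
    by_cases hj : j ∈ S
    · simpa [hj] using h1 j hj
    · simpa [hj] using h2 j hj

/-- the weight of a function -/
noncomputable def wt (y : ℝ) (b : ι → ℕ) : ℝ := ∏ j, y ^ b j

lemma sum_Fs (S : Finset ι) (A : Finset ℕ) (y : ℝ) :
    ∑ b ∈ Fs S A, wt y b = (∑ v ∈ A, y ^ v) ^ S.card := by
  have h := Finset.prod_univ_sum (fun j : ι => if j ∈ S then A else ({0} : Finset ℕ))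
    (fun (_ : ι) v => y ^ v)
  unfold wt Fs
  rw [← h]
  have h2 : ∀ j : ι, ∑ v ∈ (if j ∈ S then A else ({0} : Finset ℕ)), y ^ v
      = if j ∈ S then (∑ v ∈ A, y ^ v) else 1 := by
    intro j; split_ifs <;> simp
  simp only [h2]
  rw [Finset.prod_ite]
  simp

/-- the counting form of a prime parking function on the index set `I` -/
def Prm (I : Finset ι) (b : ι → ℕ) : Prop :=
  (∀ l, 1 ≤ l → l < I.card → l + 1 ≤ (I.filter (fun j => b j < l)).card) ∧
  (∀ j ∈ I, b j < I.card)

noncomputable def PP (y : ℝ) (I : Finset ι) : ℝ :=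
  ∑ b ∈ (Fs I (range I.card)).filter (Prm I), wt y b

def Gc (S I : Finset ι) (b : ι → ℕ) : Prop :=
  Prm I b ∧ ∀ j ∈ S \ I, I.card ≤ b j

lemma wt_add (y : ℝ) (b c : ι → ℕ) : wt y (fun j => b j + c j) = wt y b * wt y c := by
  unfold wt
  rw [← Finset.prod_mul_distrib]
  refine Finset.prod_congr rfl fun j _ => ?_
  rw [pow_add]

lemma filter_eq_of_Gc {S I : Finset ι} {b : ι → ℕ} (hI : I ⊆ S) (h : Gc S I b) :
    S.filter (fun j => b j < I.card) = I := by
  ext j
  simp only [mem_filter]
  constructor
  · rintro ⟨h1, h2⟩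
    by_contra hj
    have := h.2 j (by simp [h1, hj])
    omega
  · intro hj
    exact ⟨hI hj, h.1.2 j hj⟩

lemma Gc_unique {S I I' : Finset ι} {b : ι → ℕ} (hI : I ⊆ S) (hI' : I' ⊆ S)
    (h0 : I ≠ ∅) (h0' : I' ≠ ∅) (h : Gc S I b) (h' : Gc S I' b) : I = I' := by
  have key : ∀ I I' : Finset ι, I ⊆ S → I' ⊆ S → I ≠ ∅ → Gc S I b → Gc S I' b →
      ¬ I.card < I'.card := by
    intro I I' hI hI' h0 h h' hlt
    have hpos : 1 ≤ I.card := Finset.card_pos.mpr (Finset.nonempty_iff_ne_empty.mpr h0)
    have h1 := h'.1.1 I.card hpos hlt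
    have h2 : (I'.filter (fun j => b j < I.card)).card ≤ I.card := by
      conv_rhs => rw [← filter_eq_of_Gc hI h]
      exact Finset.card_le_card (Finset.filter_subset_filter _ hI')
    omega
  have hc : I.card = I'.card := by
    have a := key I I' hI hI' h0 h h'
    have b := key I' I hI' hI h0' h' h
    omega
  rw [← filter_eq_of_Gc hI h, ← filter_eq_of_Gc hI' h', hc]

lemma Gc_exists {S : Finset ι} (b : ι → ℕ) (hS : S.Nonempty) (h : ∃ j ∈ S, b j = 0) :
    ∃ I, I ⊆ S ∧ I ≠ ∅ ∧ Gc S I b := by
  have hex : ∃ i, 1 ≤ i ∧ (S.filter (fun j => b j < i)).card ≤ i :=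
    ⟨S.card, Finset.card_pos.mpr hS, Finset.card_filter_le _ _⟩
  obtain ⟨i, ⟨hi1, hi2⟩, hmin⟩ : ∃ i, (1 ≤ i ∧ (S.filter (fun j => b j < i)).card ≤ i) ∧
      ∀ l, 1 ≤ l → l < i → l < (S.filter (fun j => b j < l)).card := by
    refine ⟨Nat.find hex, Nat.find_spec hex, fun l hl1 hl2 => ?_⟩
    have := Nat.find_min hex hl2
    push Not at this
    exact this hl1
  have hcard : (S.filter (fun j => b j < i)).card = i := by
    rcases Nat.lt_or_ge 1 i with h1 | h1
    · have h2 := hmin (i - 1) (by omega) (by omega)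
      have h3 : (S.filter (fun j => b j < i - 1)).card ≤ (S.filter (fun j => b j < i)).card := by
        refine Finset.card_le_card fun j hj => ?_
        simp only [mem_filter] at hj ⊢
        exact ⟨hj.1, by omega⟩
      omega
    · obtain ⟨j, hj, hj0⟩ := h
      have h3 : 0 < (S.filter (fun j => b j < i)).card :=
        Finset.card_pos.mpr ⟨j, by simp [hj, hj0]; omega⟩
      omega
  refine ⟨S.filter (fun j => b j < i), Finset.filter_subset _ _, ?_, ⟨?_, ?_⟩, ?_⟩
  · intro h0
    rw [h0] at hcard
    simp at hcard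
    omega
  · intro l hl1 hl2
    rw [hcard] at hl2
    have h1 := hmin l hl1 hl2
    have h2 : (S.filter (fun j => b j < i)).filter (fun j => b j < l)
        = S.filter (fun j => b j < l) := by
      ext j
      simp only [mem_filter]
      constructor
      · rintro ⟨⟨a, b⟩, c⟩; exact ⟨a, c⟩
      · rintro ⟨a, c⟩; exact ⟨⟨a, by omega⟩, c⟩
    rw [h2]
    omega
  · intro j hj
    rw [hcard]
    simp only [mem_filter] at hj
    exact hj.2
  · intro j hj
    rw [hcard]
    simp only [mem_sdiff, mem_filter] at hj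
    by_contra hlt
    exact hj.2 ⟨hj.1, by omega⟩

lemma sum_Gc (y : ℝ) {S I : Finset ι} (hI : I ⊆ S) {m : ℕ} (hm : S.card ≤ m) :
    ∑ b ∈ (Fs S (range m)).filter (Gc S I), wt y b
      = PP y I * ∑ c ∈ Fs (S \ I) (Ico I.card m), wt y c := by
  unfold PP
  rw [Finset.sum_mul_sum, ← Finset.sum_product']
  have hIm : I.card ≤ m := le_trans (Finset.card_le_card hI) hm
  refine Finset.sum_bij'
    (fun b _ => ((fun j => if j ∈ I then b j else 0), (fun j => if j ∈ I then 0 else b j)))
    (fun x _ => fun j => x.1 j + x.2 j) ?_ ?_ ?_ ?_ ?_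
  · intro b hb
    simp only [mem_filter, mem_Fs, Gc, Prm, mem_product] at hb ⊢
    obtain ⟨⟨h1, h2⟩, ⟨h3, h4⟩, h5⟩ := hb
    refine ⟨⟨⟨fun j hj => ?_, fun j hj => ?_⟩, fun l hl1 hl2 => ?_, fun j hj => ?_⟩, ?_, ?_⟩
    · simp only [hj, if_true, mem_range]; exact h4 j hj
    · simp [hj]
    · have h6 : I.filter (fun j => (if j ∈ I then b j else 0) < l)
          = I.filter (fun j => b j < l) := by
        refine Finset.filter_congr fun j hj => ?_
        simp [hj]
      rw [h6]
      exact h3 l hl1 hl2
    · simp only [hj, if_true]; exact h4 j hj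
    · intro j hj
      have hj' : j ∈ S ∧ j ∉ I := by simpa using hj
      simp only [hj'.2, if_false, mem_Ico]
      exact ⟨h5 j hj, by simpa using h1 j hj'.1⟩
    · intro j hj
      by_cases hjI : j ∈ I
      · simp [hjI]
      · simp only [hjI, if_false]
        apply h2
        intro hjS
        exact hj (by simp [hjS, hjI])
  · rintro ⟨c, d⟩ hx
    simp only [mem_filter, mem_Fs, Gc, Prm, mem_product] at hx ⊢
    obtain ⟨⟨⟨h1, h2⟩, h3, h4⟩, h5, h6⟩ := hx
    have hd0 : ∀ j ∈ I, d j = 0 := fun j hj => h6 j (by simp [hj])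
    refine ⟨⟨fun j hj => ?_, fun j hj => ?_⟩, ⟨fun l hl1 hl2 => ?_, fun j hj => ?_⟩, ?_⟩
    · by_cases hjI : j ∈ I
      · rw [hd0 j hjI]
        have := h4 j hjI
        simp only [mem_range]
        omega
      · rw [h2 j hjI]
        have := h5 j (by simp [hj, hjI])
        simp only [mem_Ico, mem_range] at this ⊢
        omega
    · rw [h2 j (fun h => hj (hI h)), h6 j (by simp [hj])]
    · have h7 : I.filter (fun j => c j + d j < l) = I.filter (fun j => c j < l) := by
        refine Finset.filter_congr fun j hj => ?_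
        rw [hd0 j hj, add_zero]
      rw [h7]
      exact h3 l hl1 hl2
    · rw [hd0 j hj, add_zero]; exact h4 j hj
    · intro j hj
      have hj' : j ∈ S ∧ j ∉ I := by simpa using hj
      rw [h2 j hj'.2]
      have := h5 j hj
      simp only [mem_Ico] at this
      omega
  · intro b hb
    funext j
    by_cases hj : j ∈ I <;> simp [hj]
  · rintro ⟨c, d⟩ hx
    simp only [mem_filter, mem_Fs, Gc, Prm, mem_product] at hx
    obtain ⟨⟨⟨h1, h2⟩, h3, h4⟩, h5, h6⟩ := hx
    have hd0 : ∀ j ∈ I, d j = 0 := fun j hj => h6 j (by simp [hj])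
    refine Prod.ext ?_ ?_
    · funext j
      by_cases hj : j ∈ I
      · simp [hj, hd0 j hj]
      · simp [hj, h2 j hj]
    · funext j
      by_cases hj : j ∈ I
      · simp [hj, hd0 j hj]
      · simp [hj, h2 j hj]
  · intro b hb
    simp only
    rw [← wt_add]
    congr 1
    funext j
    by_cases hj : j ∈ I <;> simp [hj]

lemma decomp (y : ℝ) {S : Finset ι} (hS : S.Nonempty) {m : ℕ} (hm : S.card ≤ m) :
    ∑ b ∈ Fs S (range m), wt y b = ∑ b ∈ Fs S (Ico 1 m), wt y b +
      ∑ I ∈ S.powerset.erase ∅, PP y I * ∑ c ∈ Fs (S \ I) (Ico I.card m), wt y c := by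
  have h1 : ∀ b ∈ Fs S (range m), wt y b = (if ∀ j ∈ S, b j ≠ 0 then wt y b else 0) +
      ∑ I ∈ S.powerset.erase ∅, (if Gc S I b then wt y b else 0) := by
    intro b hb
    by_cases hpos : ∀ j ∈ S, b j ≠ 0
    · rw [if_pos hpos]
      have : ∑ I ∈ S.powerset.erase ∅, (if Gc S I b then wt y b else 0) = 0 := by
        refine Finset.sum_eq_zero fun I hI => ?_
        simp only [mem_erase, mem_powerset] at hI
        rw [if_neg]
        intro hG
        obtain ⟨hne, hIS⟩ := hI
        have hIc : 1 ≤ I.card := Finset.card_pos.mpr (Finset.nonempty_iff_ne_empty.mpr hne)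
        rcases Nat.lt_or_ge 1 I.card with h2 | h2
        · have h3 := hG.1.1 1 le_rfl h2
          have h4 : 0 < (I.filter (fun j => b j < 1)).card := by omega
          obtain ⟨j, hj⟩ := Finset.card_pos.mp h4
          simp only [mem_filter] at hj
          exact hpos j (hIS hj.1) (by omega)
        · obtain ⟨j, hj⟩ := Finset.card_pos.mp hIc
          have := hG.1.2 j hj
          exact hpos j (hIS hj) (by omega)
      rw [this, add_zero]
    · rw [if_neg hpos, zero_add]
      push Not at hpos
      obtain ⟨I, hI1, hI2, hI3⟩ := Gc_exists b hS hpos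
      rw [Finset.sum_eq_single I]
      · rw [if_pos hI3]
      · intro I' hI' hne
        simp only [mem_erase, mem_powerset] at hI'
        rw [if_neg]
        intro hG
        exact hne (Gc_unique hI'.2 hI1 hI'.1 hI2 hG hI3)
      · intro hI'
        exfalso
        exact hI' (by simp [hI1, hI2])
  rw [Finset.sum_congr rfl h1, Finset.sum_add_distrib]
  congr 1
  · rw [← Finset.sum_filter]
    refine Finset.sum_congr ?_ fun _ _ => rfl
    ext b
    simp only [mem_filter, mem_Fs, mem_range, mem_Ico]
    constructor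
    · rintro ⟨⟨a1, a2⟩, a3⟩
      exact ⟨fun j hj => ⟨Nat.pos_of_ne_zero (a3 j hj), a1 j hj⟩, a2⟩
    · rintro ⟨a1, a2⟩
      exact ⟨⟨fun j hj => (a1 j hj).2, a2⟩, fun j hj => by have := (a1 j hj).1; omega⟩
  · rw [Finset.sum_comm]
    refine Finset.sum_congr rfl fun I hI => ?_
    simp only [mem_erase, mem_powerset] at hI
    rw [← Finset.sum_filter]
    exact sum_Gc y hI.2 hm

/-- The generating identity for prime parking functions. -/
lemma pf_identity {y : ℝ} (hy0 : 0 < y) (hy1 : y < 1) {S : Finset ι} (hS : S.Nonempty) :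
    ∑ I ∈ S.powerset.erase ∅, PP y I * ((1 - y) ^ I.card * y ^ (I.card * (S.card - I.card)))
      = 1 - y ^ S.card := by
  have hfin : ∀ m, S.card ≤ m → (1 - y ^ m) ^ S.card = (y - y ^ m) ^ S.card +
      ∑ I ∈ S.powerset.erase ∅, PP y I * ((1 - y) ^ I.card *
        (y ^ I.card - y ^ m) ^ (S.card - I.card)) := by
    intro m hm
    have hSpos : 1 ≤ S.card := Finset.card_pos.mpr hS
    have h := decomp y hS hm
    simp only [sum_Fs] at h
    have h1 : (1 - y) * ∑ v ∈ range m, y ^ v = 1 - y ^ m := by
      have := geom_sum_mul y m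
      linarith
    have h2 : ∀ i, i ≤ m → (1 - y) * ∑ v ∈ Ico i m, y ^ v = y ^ i - y ^ m := by
      intro i hi
      have := Finset.sum_Ico_eq_sub (fun v => y ^ v) hi
      rw [this, mul_sub, h1]
      have := geom_sum_mul y i
      linarith
    have h3 : (1 - y) ^ S.card * (∑ v ∈ range m, y ^ v) ^ S.card
        = (1 - y) ^ S.card * ((∑ v ∈ Ico 1 m, y ^ v) ^ S.card + ∑ I ∈ S.powerset.erase ∅,
          PP y I * (∑ v ∈ Ico I.card m, y ^ v) ^ (S \ I).card) := by rw [h]
    rw [← mul_pow, h1, mul_add, ← mul_pow, h2 1 (by omega), pow_one] at h3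
    rw [h3, Finset.mul_sum]
    congr 1
    refine Finset.sum_congr rfl fun I hI => ?_
    simp only [mem_erase, mem_powerset] at hI
    have hIS : I.card ≤ S.card := Finset.card_le_card hI.2
    have h4 : (S \ I).card = S.card - I.card := Finset.card_sdiff_of_subset hI.2
    rw [h4, ← h2 I.card (by omega), mul_pow]
    have h5 : (1 - y) ^ S.card = (1 - y) ^ I.card * (1 - y) ^ (S.card - I.card) := by
      rw [← pow_add]; congr 1; omega
    rw [h5]
    ring
  have hlim : Filter.Tendsto (fun m : ℕ => y ^ m) Filter.atTop (nhds 0) :=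
    tendsto_pow_atTop_nhds_zero_of_lt_one hy0.le hy1
  have hL : Filter.Tendsto (fun m : ℕ => (1 - y ^ m) ^ S.card) Filter.atTop
      (nhds ((1 - 0) ^ S.card)) := (tendsto_const_nhds.sub hlim).pow _
  have hR : Filter.Tendsto (fun m : ℕ => (y - y ^ m) ^ S.card +
      ∑ I ∈ S.powerset.erase ∅, PP y I * ((1 - y) ^ I.card *
        (y ^ I.card - y ^ m) ^ (S.card - I.card))) Filter.atTop
      (nhds ((y - 0) ^ S.card + ∑ I ∈ S.powerset.erase ∅, PP y I * ((1 - y) ^ I.card *
        (y ^ I.card - 0) ^ (S.card - I.card)))) := by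
    refine ((tendsto_const_nhds.sub hlim).pow _).add ?_
    refine tendsto_finsetSum _ fun I _ => ?_
    exact tendsto_const_nhds.mul (tendsto_const_nhds.mul ((tendsto_const_nhds.sub hlim).pow _))
  have heq := tendsto_nhds_unique_of_eventuallyEq hL hR
    (Filter.eventually_atTop.mpr ⟨S.card, fun m hm => hfin m hm⟩)
  simp only [sub_zero, one_pow] at heq
  have : ∀ I ∈ S.powerset.erase ∅, PP y I * ((1 - y) ^ I.card * (y ^ I.card) ^ (S.card - I.card))
      = PP y I * ((1 - y) ^ I.card * y ^ (I.card * (S.card - I.card))) := by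
    intro I _
    rw [← pow_mul]
  rw [Finset.sum_congr rfl this] at heq
  linarith

end PF

section Forest
variable {ι : Type} [Fintype ι] [LinearOrder ι]

/-- `p` is the parent function of a forest with vertex set `S` (roots are the fixed points in
`S`, points outside `S` are fixed), all of whose roots lie in `R`. -/
def Fst (S R : Finset ι) (p : ι → ι) : Prop :=
  (∀ v ∈ S, p v ∈ S) ∧ (∀ v, v ∉ S → p v = v) ∧ (∀ v, ∃ k, p (p^[k] v) = p^[k] v) ∧
  (∀ v ∈ S, p v = v → v ∈ R)

/-- number of pairs (ancestor, descendant) with the ancestor larger -/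
noncomputable def inv (p : ι → ι) : ℕ :=
  (univ.filter fun x : ι × ι => x.2 < x.1 ∧ ∃ k, p^[k] x.2 = x.1).card

noncomputable def W (q : ℝ) (S R : Finset ι) : ℝ := ∑ p ∈ univ.filter (Fst S R), q ^ inv p

lemma iter_fix {p : ι → ι} {v : ι} (h : p v = v) (k : ℕ) : p^[k] v = v :=
  Function.iterate_fixed h k

lemma Fst.iter_mem {S R : Finset ι} {p : ι → ι} (h : Fst S R p) {v : ι} (hv : v ∈ S) (k : ℕ) :
    p^[k] v ∈ S := by
  induction k with
  | zero => exact hv
  | succ k ih => rw [Function.iterate_succ_apply']; exact h.1 _ ih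

lemma Fst.root_mem {S R : Finset ι} {p : ι → ι} (h : Fst S R p) {v : ι} (hv : v ∈ S) :
    ∃ k, p^[k] v ∈ R ∧ p^[k] v ∈ S ∧ p (p^[k] v) = p^[k] v := by
  obtain ⟨k, hk⟩ := h.2.2.1 v
  exact ⟨k, h.2.2.2 _ (h.iter_mem hv k) hk, h.iter_mem hv k, hk⟩

lemma W_congr (q : ℝ) {S R R' : Finset ι} (h : ∀ v ∈ S, (v ∈ R ↔ v ∈ R')) :
    W q S R = W q S R' := by
  unfold W
  refine Finset.sum_congr ?_ fun _ _ => rfl
  refine Finset.filter_congr fun p _ => ?_
  unfold Fst
  refine and_congr Iff.rfl (and_congr Iff.rfl (and_congr Iff.rfl ?_))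
  refine forall₂_congr fun v hv => ?_
  rw [h v hv]

lemma W_no_root (q : ℝ) {S R : Finset ι} (hS : S.Nonempty) (h : S ∩ R = ∅) : W q S R = 0 := by
  unfold W
  refine Finset.sum_eq_zero fun p hp => ?_
  exfalso
  simp only [mem_filter, mem_univ, true_and] at hp
  obtain ⟨v, hv⟩ := hS
  obtain ⟨k, h1, h2, _⟩ := hp.root_mem hv
  have : p^[k] v ∈ S ∩ R := by simp [h1, h2]
  rw [h] at this
  simp at this

lemma inv_id : inv (fun v : ι => v) = 0 := by
  unfold inv
  rw [Finset.card_eq_zero]
  refine Finset.filter_eq_empty_iff.mpr ?_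
  rintro ⟨a, b⟩ _ ⟨h1, k, hk⟩
  rw [iter_fix rfl] at hk
  exact absurd h1 (by simp only at hk; rw [hk]; exact lt_irrefl _)

lemma W_empty (q : ℝ) (R : Finset ι) : W q ∅ R = 1 := by
  unfold W
  have : univ.filter (Fst (∅ : Finset ι) R) = {fun v => v} := by
    ext p
    simp only [mem_filter, mem_univ, true_and, mem_singleton, Fst]
    constructor
    · rintro ⟨_, h, _⟩
      funext v
      exact h v (by simp)
    · rintro rfl
      exact ⟨by simp, by simp, fun v => ⟨0, rfl⟩, by simp⟩
  rw [this, Finset.sum_singleton, inv_id, pow_zero]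

/-- gluing of two parent functions -/
structure Glue (C : Finset ι) (p p1 p2 : ι → ι) : Prop where
  a : ∀ v ∈ C, p v = p1 v
  a' : ∀ v ∈ C, p v ∈ C
  b : ∀ v, v ∉ C → p v = p2 v
  b' : ∀ v, v ∉ C → p v ∉ C
  c : ∀ v, v ∉ C → p1 v = v
  d : ∀ v ∈ C, p2 v = v

lemma Glue.iterC {C : Finset ι} {p p1 p2 : ι → ι} (g : Glue C p p1 p2) {v : ι} (hv : v ∈ C)
    (k : ℕ) : p^[k] v = p1^[k] v ∧ p^[k] v ∈ C := by
  induction k with
  | zero => exact ⟨rfl, hv⟩
  | succ k ih =>
    rw [Function.iterate_succ_apply', Function.iterate_succ_apply']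
    refine ⟨?_, g.a' _ ih.2⟩
    rw [g.a _ ih.2, ih.1]

lemma Glue.iterD {C : Finset ι} {p p1 p2 : ι → ι} (g : Glue C p p1 p2) {v : ι} (hv : v ∉ C)
    (k : ℕ) : p^[k] v = p2^[k] v ∧ p^[k] v ∉ C := by
  induction k with
  | zero => exact ⟨rfl, hv⟩
  | succ k ih =>
    rw [Function.iterate_succ_apply', Function.iterate_succ_apply']
    refine ⟨?_, g.b' _ ih.2⟩
    rw [g.b _ ih.2, ih.1]

lemma Glue.inv_eq {C : Finset ι} {p p1 p2 : ι → ι} (g : Glue C p p1 p2) :
    inv p = inv p1 + inv p2 := by
  unfold inv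
  rw [← Finset.card_filter_add_card_filter_not (s := univ.filter fun x : ι × ι =>
    x.2 < x.1 ∧ ∃ k, p^[k] x.2 = x.1) (fun x => x.2 ∈ C)]
  congr 2
  · ext ⟨α, β⟩
    simp only [mem_filter, mem_univ, true_and]
    constructor
    · rintro ⟨⟨h1, k, hk⟩, h2⟩
      exact ⟨h1, k, by rw [← (g.iterC h2 k).1]; exact hk⟩
    · rintro ⟨h1, k, hk⟩
      have h2 : β ∈ C := by
        by_contra hβ
        rw [iter_fix (g.c β hβ)] at hk
        rw [hk] at h1
        exact lt_irrefl _ h1
      exact ⟨⟨h1, k, by rw [(g.iterC h2 k).1]; exact hk⟩, h2⟩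
  · ext ⟨α, β⟩
    simp only [mem_filter, mem_univ, true_and]
    constructor
    · rintro ⟨⟨h1, k, hk⟩, h2⟩
      exact ⟨h1, k, by rw [← (g.iterD h2 k).1]; exact hk⟩
    · rintro ⟨h1, k, hk⟩
      have h2 : β ∉ C := by
        intro hβ
        rw [iter_fix (g.d β hβ)] at hk
        rw [hk] at h1
        exact lt_irrefl _ h1
      exact ⟨⟨h1, k, by rw [(g.iterD h2 k).1]; exact hk⟩, h2⟩

noncomputable def comp (S : Finset ι) (s : ι) (p : ι → ι) : Finset ι :=
  S.filter fun v => ∃ k, p^[k] v = s

lemma glue_of_comp {S R : Finset ι} {s : ι} {p : ι → ι} (hs : s ∈ S) (h : Fst S R p)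
    (hps : p s = s) :
    Glue (comp S s p) p (fun v => if v ∈ comp S s p then p v else v)
      (fun v => if v ∈ comp S s p then v else p v) := by
  refine ⟨fun v hv => by simp [hv], fun v hv => ?_, fun v hv => by simp [hv], fun v hv => ?_,
    fun v hv => by simp [hv], fun v hv => by simp [hv]⟩
  · simp only [comp, mem_filter] at hv ⊢
    refine ⟨h.1 v hv.1, ?_⟩
    obtain ⟨k, hk⟩ := hv.2
    refine ⟨k, ?_⟩
    rw [← Function.iterate_succ_apply, Function.iterate_succ_apply', hk, hps]
  · simp only [comp, mem_filter, not_and] at hv ⊢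
    intro h1 ⟨k, hk⟩
    have hvS : v ∈ S := by
      by_contra hvS
      rw [h.2.1 v hvS] at h1
      exact hvS h1
    exact hv hvS ⟨k + 1, by rw [Function.iterate_succ_apply]; exact hk⟩

lemma split_sum (q : ℝ) {S R C : Finset ι} {s : ι} (hs : s ∈ S) (hsR : s ∈ R) (hC : C ⊆ S)
    (hsC : s ∈ C) :
    ∑ p ∈ (univ.filter fun p => Fst S R p ∧ p s = s).filter (fun p => comp S s p = C), q ^ inv p
      = W q C {s} * W q (S \ C) R := by
  unfold W
  rw [Finset.sum_mul_sum, ← Finset.sum_product']
  refine Finset.sum_bij'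
    (fun p _ => ((fun v => if v ∈ C then p v else v), (fun v => if v ∈ C then v else p v)))
    (fun x _ => fun v => if v ∈ C then x.1 v else x.2 v) ?_ ?_ ?_ ?_ ?_
  · intro p hp
    simp only [mem_filter, mem_univ, true_and, mem_product] at hp ⊢
    obtain ⟨⟨hF, hps⟩, hCo⟩ := hp
    have g := glue_of_comp hs hF hps
    rw [hCo] at g
    refine ⟨⟨fun v hv => ?_, fun v hv => ?_, fun v => ?_, fun v hv hfix => ?_⟩,
      ⟨fun v hv => ?_, fun v hv => ?_, fun v => ?_, fun v hv hfix => ?_⟩⟩
    · simp only [hv, if_true]; exact g.a' v hv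
    · simp [hv]
    · by_cases hv : v ∈ C
      · obtain ⟨k, hk⟩ := hF.2.2.1 v
        refine ⟨k, ?_⟩
        rw [← (g.iterC hv k).1]
        simp only [(g.iterC hv k).2, if_true]
        exact hk
      · exact ⟨0, by simp [hv]⟩
    · simp only [hv, if_true] at hfix
      rw [← hCo] at hv
      simp only [comp, mem_filter] at hv
      obtain ⟨_, k, hk⟩ := hv
      rw [iter_fix hfix] at hk
      simp [hk]
    · have hv' : v ∈ S ∧ v ∉ C := by simpa using hv
      simp only [hv'.2, if_false, mem_sdiff]
      exact ⟨hF.1 v hv'.1, g.b' v hv'.2⟩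
    · by_cases hvC : v ∈ C
      · simp [hvC]
      · simp only [hvC, if_false]
        apply hF.2.1
        intro hvS
        exact hv (by simp [hvS, hvC])
    · by_cases hv : v ∈ C
      · exact ⟨0, by simp [hv]⟩
      · obtain ⟨k, hk⟩ := hF.2.2.1 v
        refine ⟨k, ?_⟩
        rw [← (g.iterD hv k).1]
        simp only [(g.iterD hv k).2, if_false]
        exact hk
    · have hv' : v ∈ S ∧ v ∉ C := by simpa using hv
      simp only [hv'.2, if_false] at hfix
      exact hF.2.2.2 v hv'.1 hfix
  · rintro ⟨p1, p2⟩ hx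
    simp only [mem_filter, mem_univ, true_and, mem_product] at hx ⊢
    obtain ⟨h1, h2⟩ := hx
    have hp2C : ∀ v ∈ C, p2 v = v := fun v hv => h2.2.1 v (by simp [hv])
    have g : Glue C (fun v => if v ∈ C then p1 v else p2 v) p1 p2 := by
      refine ⟨fun v hv => by simp [hv], fun v hv => ?_, fun v hv => by simp [hv], fun v hv => ?_,
        h1.2.1, hp2C⟩
      · simp only [hv, if_true]; exact h1.1 v hv
      · simp only [hv, if_false]
        by_cases hvS : v ∈ S
        · have := h2.1 v (by simp [hv, hvS])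
          simp only [mem_sdiff] at this
          exact this.2
        · rw [h2.2.1 v (by simp [hvS])]; exact hv
    have hp1s : p1 s = s := by
      obtain ⟨k, h3, h4, h5⟩ := h1.root_mem hsC
      obtain ⟨k', h3', h4', h5'⟩ := h1.root_mem (h1.1 s hsC)
      simp only [mem_singleton] at h3
      rw [h3] at h5
      exact h5
    refine ⟨⟨⟨fun v hv => ?_, fun v hv => ?_, fun v => ?_, fun v hv hfix => ?_⟩, ?_⟩, ?_⟩
    · by_cases hvC : v ∈ C
      · simp only [hvC, if_true]; exact hC (h1.1 v hvC)
      · simp only [hvC, if_false]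
        have := h2.1 v (by simp [hv, hvC])
        simp only [mem_sdiff] at this
        exact this.1
    · have hvC : v ∉ C := fun h => hv (hC h)
      simp only [hvC, if_false]
      exact h2.2.1 v (by simp [hv])
    · by_cases hv : v ∈ C
      · obtain ⟨k, hk⟩ := h1.2.2.1 v
        refine ⟨k, ?_⟩
        have h3 := g.iterC hv k
        exact (g.a _ h3.2).trans (by rw [h3.1]; exact hk)
      · obtain ⟨k, hk⟩ := h2.2.2.1 v
        refine ⟨k, ?_⟩
        have h3 := g.iterD hv k
        exact (g.b _ h3.2).trans (by rw [h3.1]; exact hk)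
    · by_cases hvC : v ∈ C
      · simp only [hvC, if_true] at hfix
        have := h1.2.2.2 v hvC hfix
        simp only [mem_singleton] at this
        rw [this]; exact hsR
      · simp only [hvC, if_false] at hfix
        exact h2.2.2.2 v (by simp [hv, hvC]) hfix
    · simp only [hsC, if_true]; exact hp1s
    · ext v
      simp only [comp, mem_filter]
      constructor
      · rintro ⟨hvS, k, hk⟩
        by_contra hvC
        exact (g.iterD hvC k).2 (by rw [hk]; exact hsC)
      · intro hvC
        refine ⟨hC hvC, ?_⟩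
        obtain ⟨k, h3, h4, h5⟩ := h1.root_mem hvC
        simp only [mem_singleton] at h3
        exact ⟨k, by rw [(g.iterC hvC k).1, h3]⟩
  · intro p hp
    funext v
    by_cases hv : v ∈ C <;> simp [hv]
  · rintro ⟨p1, p2⟩ hx
    simp only [mem_filter, mem_univ, true_and, mem_product] at hx
    obtain ⟨h1, h2⟩ := hx
    have hp2C : ∀ v ∈ C, p2 v = v := fun v hv => h2.2.1 v (by simp [hv])
    refine Prod.ext ?_ ?_
    · funext v
      by_cases hv : v ∈ C
      · simp [hv]
      · simp [hv, h1.2.1 v hv]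
    · funext v
      by_cases hv : v ∈ C
      · simp [hv, hp2C v hv]
      · simp [hv]
  · intro p hp
    simp only [mem_filter, mem_univ, true_and] at hp
    obtain ⟨⟨hF, hps⟩, hCo⟩ := hp
    have g := glue_of_comp hs hF hps
    rw [hCo] at g
    rw [g.inv_eq, pow_add]

lemma W_rec (q : ℝ) {S R : Finset ι} {s : ι} (hs : s ∈ S) (hsR : s ∈ R) :
    W q S R = W q S (R.erase s) +
      ∑ C ∈ S.powerset.filter (fun C => s ∈ C), W q C {s} * W q (S \ C) R := by
  have h1 : W q S R = ∑ p ∈ univ.filter (fun p => Fst S R p ∧ p s ≠ s), q ^ inv p +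
      ∑ p ∈ univ.filter (fun p => Fst S R p ∧ p s = s), q ^ inv p := by
    unfold W
    rw [← Finset.sum_filter_not_add_sum_filter (univ.filter (Fst S R)) (fun p => p s = s),
      Finset.filter_filter, Finset.filter_filter]
  rw [h1]
  congr 1
  · unfold W
    refine Finset.sum_congr ?_ fun _ _ => rfl
    refine Finset.filter_congr fun p _ => ?_
    constructor
    · rintro ⟨hF, hne⟩
      refine ⟨hF.1, hF.2.1, hF.2.2.1, fun v hv hfix => ?_⟩
      refine Finset.mem_erase.mpr ⟨?_, hF.2.2.2 v hv hfix⟩
      rintro rfl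
      exact hne hfix
    · rintro hF
      refine ⟨⟨hF.1, hF.2.1, hF.2.2.1, fun v hv hfix => ?_⟩, fun hfix => ?_⟩
      · exact Finset.mem_of_mem_erase (hF.2.2.2 v hv hfix)
      · exact (Finset.ne_of_mem_erase (hF.2.2.2 s hs hfix)) rfl
  · rw [← Finset.sum_fiberwise_of_maps_to (g := comp S s)
      (t := S.powerset.filter (fun C => s ∈ C))]
    · refine Finset.sum_congr rfl fun C hC => ?_
      simp only [mem_filter, mem_powerset] at hC
      exact split_sum q hs hsR hC.1 hC.2
    · intro p hp
      simp only [mem_filter, mem_powerset]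
      refine ⟨Finset.filter_subset _ _, ?_⟩
      simp only [comp, mem_filter]
      exact ⟨hs, 0, rfl⟩

/-- cutting off the root `s` -/
noncomputable def cut (s : ι) (p : ι → ι) : ι → ι := fun v => if p v = s then v else p v

/-- attaching all roots to the new root `s` -/
noncomputable def attach (C : Finset ι) (s : ι) (p : ι → ι) : ι → ι :=
  fun v => if v ∈ C ∧ p v = v then s else p v

lemma cut_iter {s : ι} {p : ι → ι} (hs : p s = s) (v : ι) (k : ℕ) (h : p^[k] v ≠ s) :
    (cut s p)^[k] v = p^[k] v := by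
  induction k with
  | zero => rfl
  | succ k ih =>
    rw [Function.iterate_succ_apply'] at h ⊢
    rw [Function.iterate_succ_apply']
    have h1 : p^[k] v ≠ s := fun h2 => h (by rw [h2, hs])
    rw [ih h1]
    simp [cut, h]

lemma iter_cut {s : ι} {p : ι → ι} (v : ι) (k : ℕ) : ∃ j, (cut s p)^[k] v = p^[j] v := by
  induction k with
  | zero => exact ⟨0, rfl⟩
  | succ k ih =>
    obtain ⟨j, hj⟩ := ih
    rw [Function.iterate_succ_apply', hj]
    by_cases h : p (p^[j] v) = s
    · exact ⟨j, by simp [cut, h]⟩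
    · exact ⟨j + 1, by rw [Function.iterate_succ_apply']; simp [cut, h]⟩

lemma Fst.single_root {C : Finset ι} {s : ι} {p : ι → ι} (h : Fst C {s} p) {v : ι} (hv : v ∈ C) :
    ∃ k, p^[k] v = s := by
  obtain ⟨k, h1, _, _⟩ := h.root_mem hv
  exact ⟨k, by simpa using h1⟩

lemma Fst.single_fix {C : Finset ι} {s : ι} {p : ι → ι} (h : Fst C {s} p) (hs : s ∈ C) :
    p s = s := by
  obtain ⟨k, h1, _, h3⟩ := h.root_mem hs
  rw [Finset.mem_singleton] at h1
  rw [h1] at h3
  exact h3

lemma root_bij (g : (ι → ι) → ℝ) {C R : Finset ι} {s : ι} (hs : s ∈ C) :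
    ∑ p ∈ univ.filter (fun p => Fst C {s} p ∧ ∀ v ∈ C, v ≠ s → p v = s → v ∈ R), g (cut s p)
      = ∑ p ∈ univ.filter (Fst (C.erase s) R), g p := by
  have hcut_mem : ∀ p, Fst C {s} p → (∀ v ∈ C, v ≠ s → p v = s → v ∈ R) →
      Fst (C.erase s) R (cut s p) := by
    intro p hF hR
    have hps := hF.single_fix hs
    refine ⟨fun v hv => ?_, fun v hv => ?_, fun v => ?_, fun v hv hfix => ?_⟩
    · unfold cut
      split_ifs with h
      · exact hv
      · exact Finset.mem_erase.mpr ⟨h, hF.1 v (Finset.mem_of_mem_erase hv)⟩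
    · unfold cut
      split_ifs with h
      · rfl
      · apply hF.2.1
        intro hvC
        apply hv
        refine Finset.mem_erase.mpr ⟨?_, hvC⟩
        rintro rfl
        exact h hps
    · by_cases hv : v ∈ C.erase s
      · have hvC := Finset.mem_of_mem_erase hv
        have hvs := Finset.ne_of_mem_erase hv
        have hex : ∃ k, p^[k] v = s := hF.single_root hvC
        have hspec := Nat.find_spec hex
        have hpos : Nat.find hex ≠ 0 := by
          intro h0
          rw [h0] at hspec
          exact hvs hspec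
        obtain ⟨m, hm⟩ := Nat.exists_eq_succ_of_ne_zero hpos
        have hne : p^[m] v ≠ s := Nat.find_min hex (by omega)
        rw [hm] at hspec
        refine ⟨m, ?_⟩
        rw [cut_iter hps v m hne]
        rw [Nat.succ_eq_add_one, Function.iterate_succ_apply'] at hspec
        simp [cut, hspec]
      · refine ⟨0, ?_⟩
        simp only [Function.iterate_zero, id]
        unfold cut
        split_ifs with h
        · rfl
        · apply hF.2.1
          intro hvC
          apply hv
          refine Finset.mem_erase.mpr ⟨?_, hvC⟩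
          rintro rfl
          exact h hps
    · have hvC := Finset.mem_of_mem_erase hv
      have hvs := Finset.ne_of_mem_erase hv
      by_cases h : p v = s
      · exact hR v hvC hvs h
      · simp only [cut, h, if_false] at hfix
        have := hF.2.2.2 v hvC hfix
        simp only [mem_singleton] at this
        exact absurd this hvs
  refine Finset.sum_bij' (fun p _ => cut s p) (fun p _ => attach C s p) ?_ ?_ ?_ ?_ ?_
  · intro p hp
    simp only [mem_filter, mem_univ, true_and] at hp ⊢
    exact hcut_mem p hp.1 hp.2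
  · intro p hp
    simp only [mem_filter, mem_univ, true_and] at hp ⊢
    have hps : p s = s := hp.2.1 s (by simp)
    have hatt_s : attach C s p s = s := by simp [attach, hs, hps]
    have hrel : cut s (attach C s p) = p := by
      funext v
      unfold cut attach
      by_cases h1 : v ∈ C ∧ p v = v
      · simp [h1]
      · simp only [h1, if_false]
        split_ifs with h2
        · by_cases hvC : v ∈ C
          · have hvs : v ≠ s := by
              rintro rfl
              exact h1 ⟨hvC, hps⟩
            have := hp.1 v (Finset.mem_erase.mpr ⟨hvs, hvC⟩)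
            rw [h2] at this
            simp at this
          · rw [hp.2.1 v (by simp [hvC])]
        · rfl
    refine ⟨⟨fun v hv => ?_, fun v hv => ?_, fun v => ?_, fun v hv hfix => ?_⟩, ?_⟩
    · unfold attach
      split_ifs with h
      · exact hs
      · have hvs : v ≠ s := by
          rintro rfl
          exact h ⟨hv, hps⟩
        exact Finset.mem_of_mem_erase (hp.1 v (Finset.mem_erase.mpr ⟨hvs, hv⟩))
    · unfold attach
      rw [if_neg (fun h => hv h.1)]
      exact hp.2.1 v (by simp [hv])
    · by_cases hvC : v ∈ C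
      · obtain ⟨k, hk⟩ := hp.2.2.1 v
        obtain ⟨j, hj⟩ := iter_cut (s := s) (p := attach C s p) v k
        rw [hrel] at hj
        refine ⟨j + 1, ?_⟩
        have hw : attach C s p ((attach C s p)^[j] v) = s := by
          rw [← hj]
          unfold attach
          have hmem : p^[k] v ∈ C := by
            by_cases hvs : v = s
            · rw [hvs, iter_fix hps]; exact hs
            · exact Finset.mem_of_mem_erase (hp.iter_mem (Finset.mem_erase.mpr ⟨hvs, hvC⟩) k)
          rw [if_pos ⟨hmem, hk⟩]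
        rw [Function.iterate_succ_apply', hw, hatt_s]
      · refine ⟨0, ?_⟩
        simp only [Function.iterate_zero, id]
        unfold attach
        rw [if_neg (fun h => hvC h.1)]
        exact hp.2.1 v (by simp [hvC])
    · unfold attach at hfix
      split_ifs at hfix with h
      · simp [hfix]
      · exact absurd ⟨hv, hfix⟩ h
    · intro v hv hvs h
      unfold attach at h
      have hve : v ∈ C.erase s := Finset.mem_erase.mpr ⟨hvs, hv⟩
      split_ifs at h with h2
      · exact hp.2.2.2 v hve h2.2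
      · have := hp.1 v hve
        rw [h] at this
        simp at this
  · intro p hp
    simp only [mem_filter, mem_univ, true_and] at hp
    obtain ⟨hF, hR⟩ := hp
    have hps := hF.single_fix hs
    funext v
    by_cases hvC : v ∈ C
    · by_cases h : p v = s
      · simp [attach, cut, h, hvC]
      · have h2 : p v ≠ v := by
          intro h2
          have := hF.2.2.2 v hvC h2
          simp only [mem_singleton] at this
          rw [this] at h
          exact h hps
        simp [attach, cut, h, hvC, h2]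
    · have h1 := hF.2.1 v hvC
      have h2 : v ≠ s := fun h => hvC (h ▸ hs)
      simp [attach, cut, h1, h2, hvC]
  · intro p hp
    simp only [mem_filter, mem_univ, true_and] at hp
    have hps : p s = s := hp.2.1 s (by simp)
    funext v
    unfold cut attach
    by_cases h1 : v ∈ C ∧ p v = v
    · simp [h1]
    · simp only [h1, if_false]
      split_ifs with h2
      · by_cases hvC : v ∈ C
        · have hvs : v ≠ s := by
            rintro rfl
            exact h1 ⟨hvC, hps⟩
          have := hp.1 v (Finset.mem_erase.mpr ⟨hvs, hvC⟩)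
          rw [h2] at this
          simp at this
        · rw [hp.2.1 v (by simp [hvC])]
      · rfl
  · intro p hp
    rfl

lemma desc_cut {s : ι} {p : ι → ι} (hps : p s = s) {α β : ι} (hα : α ≠ s) :
    (∃ k, p^[k] β = α) ↔ ∃ k, (cut s p)^[k] β = α := by
  constructor
  · rintro ⟨k, hk⟩
    exact ⟨k, by rw [cut_iter hps β k (by rw [hk]; exact hα), hk]⟩
  · rintro ⟨k, hk⟩
    obtain ⟨j, hj⟩ := iter_cut (s := s) (p := p) β k
    exact ⟨j, by rw [← hj, hk]⟩

lemma cut_no_root {C : Finset ι} {s : ι} {p : ι → ι} (hF : Fst C {s} p) (hs : s ∈ C) {β : ι}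
    (hβ : β ≠ s) (k : ℕ) : (cut s p)^[k] β ≠ s := by
  induction k with
  | zero => exact hβ
  | succ k ih =>
    rw [Function.iterate_succ_apply']
    unfold cut at ih ⊢
    split_ifs with h
    · exact ih
    · exact h

lemma inv_tree {C : Finset ι} {s : ι} {p : ι → ι} (hF : Fst C {s} p) (hs : s ∈ C) :
    inv p = (C.filter (· < s)).card + inv (cut s p) := by
  have hps := hF.single_fix hs
  unfold inv
  rw [← Finset.card_filter_add_card_filter_not (s := univ.filter fun x : ι × ι =>
    x.2 < x.1 ∧ ∃ k, p^[k] x.2 = x.1) (fun x => x.1 = s)]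
  congr 1
  · refine Finset.card_bij' (fun x _ => x.2) (fun v _ => (s, v)) ?_ ?_ ?_ ?_
    · rintro ⟨α, β⟩ hx
      simp only [mem_filter, mem_univ, true_and] at hx ⊢
      obtain ⟨⟨h1, k, hk⟩, h2⟩ := hx
      subst h2
      refine ⟨?_, h1⟩
      by_contra hβ
      rw [iter_fix (hF.2.1 β hβ)] at hk
      rw [hk] at h1
      exact lt_irrefl _ h1
    · intro v hv
      simp only [mem_filter, mem_univ, true_and] at hv ⊢
      exact ⟨⟨hv.2, hF.single_root hv.1⟩, trivial⟩
    · rintro ⟨α, β⟩ hx
      simp only [mem_filter, mem_univ, true_and] at hx ⊢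
      rw [hx.2]
    · intro v hv
      rfl
  · congr 1
    ext ⟨α, β⟩
    simp only [mem_filter, mem_univ, true_and]
    constructor
    · rintro ⟨⟨h1, h2⟩, h3⟩
      exact ⟨h1, (desc_cut hps h3).mp h2⟩
    · rintro ⟨h1, h2⟩
      have hα : α ≠ s := by
        rintro rfl
        obtain ⟨k, hk⟩ := h2
        exact cut_no_root hF hs (ne_of_lt h1) k hk
      exact ⟨⟨h1, (desc_cut hps hα).mpr h2⟩, hα⟩

lemma W_tree (q : ℝ) {C : Finset ι} {s : ι} (hs : s ∈ C) :
    W q C {s} = q ^ (C.filter (· < s)).card * W q (C.erase s) univ := by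
  have h := root_bij (fun p => q ^ inv p) (C := C) (R := univ) hs
  unfold W
  rw [← h, Finset.mul_sum]
  have h2 : univ.filter (Fst C {s}) = univ.filter
      (fun p => Fst C {s} p ∧ ∀ v ∈ C, v ≠ s → p v = s → v ∈ (univ : Finset ι)) := by
    refine Finset.filter_congr fun p _ => ?_
    simp
  rw [h2]
  refine Finset.sum_congr rfl fun p hp => ?_
  simp only [mem_filter, mem_univ, true_and] at hp
  rw [inv_tree hp.1 hs, pow_add]

/-! ### The alternating sum -/

/-- the coefficients -/
noncomputable def al (q : ℝ) : ℕ → ℝ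
  | 0 => 1
  | n + 1 => -(q ^ n / (1 - q)) * al q n

noncomputable def E (q : ℝ) (S R : Finset ι) : ℝ :=
  ∑ X ∈ S.powerset, al q X.card * W q (S \ X) R

lemma reindex (q : ℝ) (S R : Finset ι) {s : ι} (hs : s ∈ S) :
    ∑ C ∈ S.powerset.filter (fun C => s ∈ C), W q (C.erase s) R * al q (S \ C).card
      = E q (S.erase s) R := by
  unfold E
  refine Finset.sum_bij' (fun C _ => S \ C) (fun X _ => S \ X) ?_ ?_ ?_ ?_ ?_
  · intro C hC
    simp only [mem_filter, mem_powerset] at hC ⊢
    intro x hx
    simp only [mem_sdiff] at hx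
    refine Finset.mem_erase.mpr ⟨?_, hx.1⟩
    rintro rfl
    exact hx.2 hC.2
  · intro X hX
    simp only [mem_filter, mem_powerset] at hX ⊢
    refine ⟨Finset.sdiff_subset, ?_⟩
    simp only [mem_sdiff]
    exact ⟨hs, fun h => (Finset.ne_of_mem_erase (hX h)) rfl⟩
  · intro C hC
    simp only [mem_filter, mem_powerset] at hC
    exact Finset.sdiff_sdiff_eq_self hC.1
  · intro X hX
    simp only [mem_powerset] at hX
    exact Finset.sdiff_sdiff_eq_self (hX.trans (Finset.erase_subset _ _))
  · intro C hC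
    simp only [mem_filter, mem_powerset] at hC
    rw [mul_comm]
    congr 2
    ext x
    simp only [mem_sdiff, mem_erase]
    constructor
    · rintro ⟨h1, h2⟩
      exact ⟨⟨h1, hC.1 h2⟩, fun h => h.2 h2⟩
    · rintro ⟨⟨h1, h2⟩, h3⟩
      refine ⟨h1, ?_⟩
      by_contra h4
      exact h3 ⟨h2, h4⟩

lemma E_rec (q : ℝ) {S R : Finset ι} {s : ι} (hs : s ∈ S) (hsR : s ∈ R) :
    E q S R = E q S (R.erase s) +
      ∑ C ∈ S.powerset.filter (fun C => s ∈ C), W q C {s} * E q (S \ C) R := by
  have h1 : ∀ X ∈ S.powerset, al q X.card * W q (S \ X) R = al q X.card * W q (S \ X) (R.erase s) +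
      if s ∉ X then al q X.card * ∑ C ∈ (S \ X).powerset.filter (fun C => s ∈ C),
        W q C {s} * W q ((S \ X) \ C) R else 0 := by
    intro X hX
    by_cases hsX : s ∈ X
    · rw [if_neg (by simp [hsX]), add_zero]
      congr 1
      apply W_congr
      intro v hv
      have : v ≠ s := by
        rintro rfl
        simp only [mem_sdiff] at hv
        exact hv.2 hsX
      simp [this]
    · rw [if_pos hsX, ← mul_add, ← W_rec q (by simp [hs, hsX]) hsR]
  unfold E
  rw [Finset.sum_congr rfl h1, Finset.sum_add_distrib]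
  congr 1
  rw [← Finset.sum_filter]
  simp only [Finset.mul_sum]
  rw [Finset.sum_comm' (s' := fun C => (S \ C).powerset)
    (t' := S.powerset.filter (fun C => s ∈ C))]
  · refine Finset.sum_congr rfl fun C hC => ?_
    refine Finset.sum_congr rfl fun X hX => ?_
    have : (S \ X) \ C = (S \ C) \ X := sdiff_right_comm S X C
    rw [this]
    ring
  · intro X C
    simp only [mem_filter, mem_powerset, Finset.subset_iff, mem_sdiff]
    constructor
    · rintro ⟨⟨h1, h2⟩, h3, h4⟩
      refine ⟨fun x hx => ⟨h1 hx, fun hxC => (h3 hxC).2 hx⟩, fun x hx => (h3 hx).1, h4⟩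
    · rintro ⟨h1, h2, h3⟩
      refine ⟨⟨fun x hx => (h1 hx).1, fun hsX => (h1 hsX).2 h3⟩,
        fun x hx => ⟨h2 hx, fun hxX => (h1 hxX).2 hx⟩, h3⟩

lemma E_eq {q : ℝ} (hq : q ≠ 1) : ∀ n : ℕ, ∀ S R : Finset ι, S.card = n →
    (∀ x ∈ S, ∀ y ∈ R, y ∈ S → x < y → x ∈ R) →
    E q S R = q ^ (S ∩ R).card * al q S.card := by
  intro n
  induction n using Nat.strong_induction_on with
  | _ n ihn =>
    intro S R hS hR
    obtain ⟨m, hm⟩ : ∃ m, (S ∩ R).card = m := ⟨_, rfl⟩
    induction m generalizing R with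
    | zero =>
      have h0 : S ∩ R = ∅ := Finset.card_eq_zero.mp hm
      rw [hm, pow_zero, one_mul]
      unfold E
      rw [Finset.sum_eq_single S]
      · rw [Finset.sdiff_self, W_empty, mul_one]
      · intro X hX hne
        rw [W_no_root, mul_zero]
        · rw [Finset.sdiff_nonempty]
          intro h
          exact hne (Finset.Subset.antisymm (Finset.mem_powerset.mp hX) h)
        · refine Finset.subset_empty.mp ?_
          rw [← h0]
          exact Finset.inter_subset_inter_right Finset.sdiff_subset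
      · intro h
        exact absurd (Finset.mem_powerset_self S) h
    | succ m ihm =>
      have hne : (S ∩ R).Nonempty := Finset.card_pos.mp (by omega)
      set s := (S ∩ R).max' hne with hsdef
      have hsmem : s ∈ S ∩ R := Finset.max'_mem _ _
      have hsmax : ∀ x ∈ S ∩ R, x ≤ s := fun x hx => Finset.le_max' _ _ hx
      obtain ⟨hsS, hsR⟩ := Finset.mem_inter.mp hsmem
      rw [E_rec q hsS hsR]
      have hSe : (S.erase s).card = n - 1 := by rw [Finset.card_erase_of_mem hsS, hS]
      have hnpos : 0 < n := by rw [← hS]; exact Finset.card_pos.mpr ⟨s, hsS⟩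
      have h1 : E q S (R.erase s) = q ^ m * al q S.card := by
        have hc : (S ∩ R.erase s).card = m := by
          have : S ∩ R.erase s = (S ∩ R).erase s := by
            ext x; simp only [mem_inter, mem_erase]; tauto
          rw [this, Finset.card_erase_of_mem hsmem, hm]; rfl
        rw [← hc]
        refine ihm (R.erase s) ?_ hc
        intro x hx y hy hyS hxy
        refine Finset.mem_erase.mpr ⟨?_, hR x hx y (Finset.mem_of_mem_erase hy) hyS hxy⟩
        rintro rfl
        exact absurd (hsmax y (Finset.mem_inter.mpr ⟨hyS, Finset.mem_of_mem_erase hy⟩))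
          (not_le.mpr hxy)
      have h2 : ∀ C ∈ S.powerset.filter (fun C => s ∈ C), W q C {s} * E q (S \ C) R
          = q ^ m * (W q (C.erase s) univ * al q (S \ C).card) := by
        intro C hC
        simp only [mem_filter, mem_powerset] at hC
        obtain ⟨hCS, hsC⟩ := hC
        have hcard : (S \ C).card < n := by
          rw [← hS]
          refine Finset.card_lt_card ?_
          refine (Finset.ssubset_iff_of_subset Finset.sdiff_subset).mpr ⟨s, hsS, by simp [hsC]⟩
        rw [ihn _ hcard (S \ C) R rfl (fun x hx y hy hyS hxy =>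
          hR x (Finset.mem_sdiff.mp hx).1 y hy (Finset.mem_sdiff.mp hyS).1 hxy)]
        rw [W_tree q hsC]
        have hexp : (C.filter (· < s)).card + ((S \ C) ∩ R).card = m := by
          have e1 : C.filter (· < s) = (C ∩ R).erase s := by
            ext x
            simp only [mem_filter, mem_inter, mem_erase]
            constructor
            · rintro ⟨h3, h4⟩
              exact ⟨ne_of_lt h4, h3, hR x (hCS h3) s hsR hsS h4⟩
            · rintro ⟨h3, h4, h5⟩
              exact ⟨h4, lt_of_le_of_ne (hsmax x (Finset.mem_inter.mpr ⟨hCS h4, h5⟩)) h3⟩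
          rw [e1, Finset.card_erase_of_mem (Finset.mem_inter.mpr ⟨hsC, hsR⟩)]
          have e2 : (S ∩ R).card = (C ∩ R).card + ((S \ C) ∩ R).card := by
            rw [← Finset.card_union_of_disjoint]
            · congr 1
              ext x
              simp only [mem_inter, mem_union, mem_sdiff]
              constructor
              · rintro ⟨h3, h4⟩
                by_cases h5 : x ∈ C
                · exact Or.inl ⟨h5, h4⟩
                · exact Or.inr ⟨⟨h3, h5⟩, h4⟩
              · rintro (⟨h3, h4⟩ | ⟨⟨h3, _⟩, h4⟩)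
                · exact ⟨hCS h3, h4⟩
                · exact ⟨h3, h4⟩
            · rw [Finset.disjoint_left]
              intro x hx hx'
              simp only [mem_inter, mem_sdiff] at hx hx'
              exact hx'.1.2 hx.1
          have e3 : 0 < (C ∩ R).card := Finset.card_pos.mpr ⟨s, Finset.mem_inter.mpr ⟨hsC, hsR⟩⟩
          omega
        rw [← hexp, pow_add]
        ring
      rw [h1, Finset.sum_congr rfl h2, ← Finset.mul_sum, reindex q S univ hsS]
      rw [ihn (n - 1) (by omega) (S.erase s) univ hSe (fun _ _ _ _ _ _ => Finset.mem_univ _)]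
      rw [Finset.inter_univ, hSe, hm, hS]
      obtain ⟨k, rfl⟩ : ∃ k, n = k + 1 := ⟨n - 1, by omega⟩
      have hq' : (1 - q) ≠ 0 := sub_ne_zero.mpr (Ne.symm hq)
      simp only [al, Nat.add_sub_cancel]
      field_simp
      ring

/-- weighted count of the uprooted trees on `M` -/
noncomputable def UU (q : ℝ) (M : Finset ι) : ℝ :=
  ∑ r ∈ M, W q (M.erase r) (univ.filter (· < r))

lemma sum_rank (q : ℝ) (S : Finset ι) :
    ∑ r ∈ S, q ^ (S.filter (· < r)).card = ∑ i ∈ range S.card, q ^ i := by
  induction S using Finset.induction_on_max with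
  | empty => simp
  | insert a s h ih =>
    have ha : a ∉ s := fun h' => lt_irrefl _ (h a h')
    rw [Finset.sum_insert ha, Finset.card_insert_of_notMem ha, Finset.sum_range_succ, ← ih, add_comm]
    congr 1
    · refine Finset.sum_congr rfl fun r hr => ?_
      congr 2
      rw [Finset.filter_insert, if_neg (not_lt.mpr (le_of_lt (h r hr)))]
    · congr 2
      rw [Finset.filter_insert, if_neg (lt_irrefl _)]
      exact Finset.filter_true_of_mem h

lemma tree_identity {q : ℝ} (hq : q ≠ 1) {S : Finset ι} :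
    ∑ M ∈ S.powerset, UU q M * al q (S \ M).card
      = (∑ i ∈ range S.card, q ^ i) * al q (S.card - 1) := by
  unfold UU
  simp only [Finset.sum_mul]
  rw [Finset.sum_comm' (s' := fun r => S.powerset.filter (fun C => r ∈ C)) (t' := S)]
  · have h1 : ∀ r ∈ S, ∑ M ∈ S.powerset.filter (fun C => r ∈ C),
        W q (M.erase r) (univ.filter (· < r)) * al q (S \ M).card
        = q ^ (S.filter (· < r)).card * al q (S.card - 1) := by
      intro r hr
      rw [reindex q S _ hr, E_eq hq (S.card - 1) (S.erase r) _ (Finset.card_erase_of_mem hr)]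
      · rw [Finset.card_erase_of_mem hr]
        congr 3
        ext x
        simp only [mem_inter, mem_erase, mem_filter, mem_univ, true_and]
        constructor
        · rintro ⟨⟨_, h2⟩, h3⟩; exact ⟨h2, h3⟩
        · rintro ⟨h2, h3⟩; exact ⟨⟨ne_of_lt h3, h2⟩, h3⟩
      · intro x _ y hy _ hxy
        simp only [mem_filter, mem_univ, true_and] at hy ⊢
        exact lt_trans hxy hy
    rw [Finset.sum_congr rfl h1, ← Finset.sum_mul, sum_rank, Finset.sum_mul]
  · intro M r
    simp only [mem_filter, mem_powerset]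
    constructor
    · rintro ⟨h1, h2⟩; exact ⟨⟨h1, h2⟩, h1 h2⟩
    · rintro ⟨⟨h1, h2⟩, _⟩; exact ⟨h1, h2⟩

end Forest

section Compare
variable {ι : Type} [Fintype ι] [LinearOrder ι]

lemma al_eq {y : ℝ} (hy0 : 0 < y) (hy1 : y < 1) (j : ℕ) :
    al y⁻¹ j * (1 - y) ^ j * y ^ (j.choose 2) = y ^ j := by
  induction j with
  | zero => simp [al]
  | succ j ih =>
    have h1 : (j + 1).choose 2 = j + j.choose 2 := by
      rw [Nat.choose_succ_succ' j 1, Nat.choose_one_right]
    rw [h1]
    have h2 : al y⁻¹ (j + 1) = -((y⁻¹) ^ j / (1 - y⁻¹)) * al y⁻¹ j := rfl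
    have hy : y ≠ 0 := ne_of_gt hy0
    have hy1' : 1 - y ≠ 0 := by linarith [hy1] |> fun h : 1 - y > 0 => ne_of_gt h
    have h3 : (1 - y⁻¹) = -(1 - y) / y := by field_simp; ring
    have h4 : -((y⁻¹) ^ j / (1 - y⁻¹)) * (1 - y) * y ^ j = y := by
      rw [h3, inv_pow]
      field_simp
    calc al y⁻¹ (j + 1) * (1 - y) ^ (j + 1) * y ^ (j + j.choose 2)
        = (-((y⁻¹) ^ j / (1 - y⁻¹)) * (1 - y) * y ^ j) *
          (al y⁻¹ j * (1 - y) ^ j * y ^ (j.choose 2)) := by
          rw [h2, pow_succ, pow_add]; ring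
      _ = y ^ (j + 1) := by rw [h4, ih, pow_succ]; ring

lemma choose_id (i j : ℕ) (hi : 1 ≤ i) :
    (i + j).choose 2 + 1 = j.choose 2 + (i + (i * j + (i - 1).choose 2)) := by
  obtain ⟨i, rfl⟩ : ∃ i', i = i' + 1 := ⟨i - 1, by omega⟩
  rw [Nat.add_sub_cancel]
  have : (((i + 1 + j).choose 2 + 1 : ℕ) : ℚ)
      = ((j.choose 2 + (i + 1 + ((i + 1) * j + i.choose 2)) : ℕ) : ℚ) := by
    push_cast
    rw [Nat.cast_choose_two, Nat.cast_choose_two, Nat.cast_choose_two]
    push_cast
    ring
  exact_mod_cast this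

/-- the tree side, renormalised -/
noncomputable def PT (y : ℝ) (M : Finset ι) : ℝ := y ^ ((M.card - 1).choose 2) * UU y⁻¹ M

lemma tree_identity' {y : ℝ} (hy0 : 0 < y) (hy1 : y < 1) {S : Finset ι} (hS : S.Nonempty) :
    ∑ M ∈ S.powerset.erase ∅, PT y M * ((1 - y) ^ M.card * y ^ (M.card * (S.card - M.card)))
      = 1 - y ^ S.card := by
  have hy : y ≠ 0 := ne_of_gt hy0
  have hq : y⁻¹ ≠ 1 := by
    intro h
    rw [inv_eq_one] at h
    linarith
  have h := tree_identity hq (S := S)
  have h0 : ∑ M ∈ S.powerset, UU y⁻¹ M * al y⁻¹ (S \ M).card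
      = ∑ M ∈ S.powerset.erase ∅, UU y⁻¹ M * al y⁻¹ (S \ M).card := by
    rw [← Finset.sum_erase_add _ _ (Finset.empty_mem_powerset S)]
    simp [UU]
  rw [h0] at h
  have hn : 1 ≤ S.card := Finset.card_pos.mpr hS
  have h1 : y ^ S.card * ∑ M ∈ S.powerset.erase ∅, PT y M * ((1 - y) ^ M.card *
      y ^ (M.card * (S.card - M.card)))
      = (∑ M ∈ S.powerset.erase ∅, UU y⁻¹ M * al y⁻¹ (S \ M).card) *
        ((1 - y) ^ S.card * y ^ (S.card.choose 2 + 1)) := by
    rw [Finset.mul_sum, Finset.sum_mul]
    refine Finset.sum_congr rfl fun M hM => ?_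
    simp only [mem_erase, mem_powerset] at hM
    have hMpos : 1 ≤ M.card := Finset.card_pos.mpr (Finset.nonempty_iff_ne_empty.mpr hM.1)
    have hMS : M.card ≤ S.card := Finset.card_le_card hM.2
    rw [Finset.card_sdiff_of_subset hM.2]
    obtain ⟨j, hj⟩ : ∃ j, S.card = M.card + j := ⟨S.card - M.card, by omega⟩
    rw [hj, Nat.add_sub_cancel_left, choose_id M.card j hMpos]
    have h2 := al_eq hy0 hy1 j
    unfold PT
    calc y ^ (M.card + j) * (y ^ (M.card - 1).choose 2 * UU y⁻¹ M *
          ((1 - y) ^ M.card * y ^ (M.card * j)))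
        = UU y⁻¹ M * (y ^ j) * ((1 - y) ^ M.card *
          (y ^ M.card * (y ^ (M.card * j) * y ^ (M.card - 1).choose 2))) := by
          rw [pow_add]; ring
      _ = UU y⁻¹ M * (al y⁻¹ j * (1 - y) ^ j * y ^ (j.choose 2)) * ((1 - y) ^ M.card *
          (y ^ M.card * (y ^ (M.card * j) * y ^ (M.card - 1).choose 2))) := by rw [h2]
      _ = _ := by
          rw [pow_add y (j.choose 2), pow_add y M.card, pow_add y (M.card * j), pow_add (1 - y)]
          ring
  rw [h] at h1
  have h3 : (∑ i ∈ range S.card, (y⁻¹) ^ i) * al y⁻¹ (S.card - 1) *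
      ((1 - y) ^ S.card * y ^ (S.card.choose 2 + 1)) = y ^ S.card * (1 - y ^ S.card) := by
    obtain ⟨m, hm⟩ : ∃ m, S.card = m + 1 := ⟨S.card - 1, by omega⟩
    rw [hm, Nat.add_sub_cancel]
    have h4 := al_eq hy0 hy1 m
    have h5 : (m + 1).choose 2 = m + m.choose 2 := by
      rw [Nat.choose_succ_succ' m 1, Nat.choose_one_right]
    have h6 : (∑ i ∈ range (m + 1), (y⁻¹) ^ i) * (1 - y) * y ^ m = 1 - y ^ (m + 1) := by
      have h7 := geom_sum_mul (y⁻¹) (m + 1)
      have h8 : (1 - y) = (y⁻¹ - 1) * y := by field_simp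
      rw [h8]
      calc (∑ i ∈ range (m + 1), (y⁻¹) ^ i) * ((y⁻¹ - 1) * y) * y ^ m
          = ((∑ i ∈ range (m + 1), (y⁻¹) ^ i) * (y⁻¹ - 1)) * y ^ (m + 1) := by
            rw [pow_succ]; ring
        _ = 1 - y ^ (m + 1) := by
            rw [h7, sub_mul, one_mul, inv_pow, inv_mul_cancel₀ (pow_ne_zero _ hy)]
    rw [h5]
    calc (∑ i ∈ range (m + 1), (y⁻¹) ^ i) * al y⁻¹ m *
          ((1 - y) ^ (m + 1) * y ^ (m + m.choose 2 + 1))
        = ((∑ i ∈ range (m + 1), (y⁻¹) ^ i) * (1 - y) * y ^ m) *
          (al y⁻¹ m * (1 - y) ^ m * y ^ (m.choose 2)) * y := by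
          rw [pow_succ, pow_succ, pow_add]; ring
      _ = _ := by rw [h4, h6]; ring
  rw [h3] at h1
  exact mul_left_cancel₀ (pow_ne_zero _ hy) h1

lemma PP_eq_PT {y : ℝ} (hy0 : 0 < y) (hy1 : y < 1) : ∀ n : ℕ, ∀ S : Finset ι, S.card = n →
    S.Nonempty → PP y S = PT y S := by
  intro n
  induction n using Nat.strong_induction_on with
  | _ n ih =>
    intro S hS hne
    have h1 := pf_identity hy0 hy1 hne
    have h2 := tree_identity' hy0 hy1 hne
    have hmem : S ∈ S.powerset.erase ∅ :=
      Finset.mem_erase.mpr ⟨Finset.nonempty_iff_ne_empty.mp hne, Finset.mem_powerset_self S⟩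
    rw [← Finset.sum_erase_add _ _ hmem] at h1 h2
    have h3 : ∑ I ∈ (S.powerset.erase ∅).erase S, PP y I * ((1 - y) ^ I.card *
        y ^ (I.card * (S.card - I.card)))
        = ∑ I ∈ (S.powerset.erase ∅).erase S, PT y I * ((1 - y) ^ I.card *
        y ^ (I.card * (S.card - I.card))) := by
      refine Finset.sum_congr rfl fun I hI => ?_
      simp only [mem_erase, mem_powerset] at hI
      obtain ⟨hIS, hI0, hsub⟩ := hI
      rw [ih I.card ?_ I rfl (Finset.nonempty_iff_ne_empty.mpr hI0)]
      rw [← hS]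
      exact Finset.card_lt_card (Finset.ssubset_iff_subset_ne.mpr ⟨hsub, hIS⟩)
    rw [h3] at h1
    have h4 : PP y S * ((1 - y) ^ S.card * y ^ (S.card * (S.card - S.card)))
        = PT y S * ((1 - y) ^ S.card * y ^ (S.card * (S.card - S.card))) := by linarith
    have h5 : ((1 - y) ^ S.card * y ^ (S.card * (S.card - S.card))) ≠ 0 := by
      have : 0 < 1 - y := by linarith
      positivity
    exact mul_right_cancel₀ h5 h4

end Compare

/-! ### The main statement -/

/-- A sequence `a : Fin n → ℕ` is a spherical parking function of length `n` when its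
nondecreasing rearrangement `c₁ ≤ c₂ ≤ ⋯ ≤ cₙ` satisfies `c₁ = 1` and `cᵢ < i` for `2 ≤ i ≤ n`.
(With indices starting at `0`, the entry at position `i` of the rearrangement is `a (σ i)`, and
it is the entry `c_{i+1}`.) -/
def IsSpherical (n : ℕ) (a : Fin n → ℕ) : Prop :=
  ∃ σ : Equiv.Perm (Fin n), Monotone (fun i => a (σ i)) ∧
    (∀ i : Fin n, i.val = 0 → a (σ i) = 1) ∧
    (∀ i : Fin n, 1 ≤ i.val → a (σ i) < i.val + 1)

/-- A rooted tree with vertex set `Fin n` (the labels `1, …, n` in their natural order), given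
by its root and its parent function; the root is declared to be its own parent, and every vertex
reaches the root by passing to parents. -/
@[ext] structure RootedTree (n : ℕ) where
  root : Fin n
  parent : Fin n → Fin n
  parent_root : parent root = root
  reach : ∀ v, ∃ k : ℕ, parent^[k] v = root

/-- The tree is uprooted: the root is larger than each of its children. -/
def Uprooted {n : ℕ} (T : RootedTree n) : Prop :=
  ∀ v, v ≠ T.root → T.parent v = T.root → v < T.root

/-- The number of surface inversions: ordered pairs `(α, β)` of vertices, both different from the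
root, such that `β ≠ α`, `α` lies on the path from `β` to the root, and `α > β`. -/
noncomputable def surfaceInversions {n : ℕ} (T : RootedTree n) : ℕ :=
  Nat.card {x : Fin n × Fin n // x.1 ≠ T.root ∧ x.2 ≠ T.root ∧ x.2 ≠ x.1 ∧
    (∃ k : ℕ, T.parent^[k] x.2 = x.1) ∧ x.2 < x.1}

lemma spherical_iff {n : ℕ} (hn : 1 ≤ n) (a : Fin n → ℕ) :
    IsSpherical n a ↔ (∀ j, 1 ≤ a j) ∧ Prm univ (fun j => a j - 1) := by
  constructor
  · rintro ⟨σ, hmono, h0, hi⟩
    have hpos : ∀ j, 1 ≤ a j := by
      intro j
      have h1 : (fun i => a (σ i)) (⟨0, hn⟩ : Fin n) ≤ (fun i => a (σ i)) (σ.symm j) :=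
        hmono (Fin.mk_le_of_le_val (Nat.zero_le _))
      simp only [Equiv.apply_symm_apply] at h1
      rw [h0 ⟨0, hn⟩ rfl] at h1
      exact h1
    refine ⟨hpos, ?_, ?_⟩
    · intro l hl1 hl2
      simp only [Finset.card_univ, Fintype.card_fin] at hl2
      have h1 : ((Finset.Iic (⟨l, hl2⟩ : Fin n)).image σ).card = l + 1 := by
        rw [Finset.card_image_of_injective _ σ.injective, Fin.card_Iic]
      rw [← h1]
      refine Finset.card_le_card ?_
      intro j hj
      simp only [Finset.mem_image, Finset.mem_Iic] at hj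
      obtain ⟨i, hi1, rfl⟩ := hj
      have h2 : a (σ i) ≤ a (σ ⟨l, hl2⟩) := hmono hi1
      have h3 := hi ⟨l, hl2⟩ hl1
      simp only at h3
      simp only [Finset.mem_filter, Finset.mem_univ, true_and]
      have := hpos (σ i)
      omega
    · intro j _
      simp only [Finset.card_univ, Fintype.card_fin]
      have h1 : (fun i => a (σ i)) (σ.symm j) ≤ (fun i => a (σ i)) (⟨n - 1, by omega⟩ : Fin n) :=
        hmono (by
          rw [Fin.le_def]
          simp only
          have := (σ.symm j).isLt
          omega)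
      simp only [Equiv.apply_symm_apply] at h1
      have := hpos j
      rcases Nat.lt_or_ge 1 n with h2 | h2
      · have h3 := hi ⟨n - 1, by omega⟩ (by simp only; omega)
        simp only at h3
        omega
      · have h3 := h0 ⟨n - 1, by omega⟩ (by simp only; omega)
        omega
  · rintro ⟨hpos, h1, h2⟩
    simp only [Finset.card_univ, Fintype.card_fin] at h1 h2
    refine ⟨Tuple.sort a, Tuple.monotone_sort a, ?_, ?_⟩
    · intro i hi
      have hmin : ∀ j, a (Tuple.sort a i) ≤ a j := by
        intro j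
        have h3 : (a ∘ Tuple.sort a) i ≤ (a ∘ Tuple.sort a) ((Tuple.sort a).symm j) :=
          Tuple.monotone_sort a (by rw [Fin.le_def, hi]; exact Nat.zero_le _)
        simpa using h3
      have hp := hpos (Tuple.sort a i)
      rcases Nat.lt_or_ge 1 n with h3 | h3
      · have h4 := h1 1 le_rfl h3
        have h5 : 0 < (Finset.univ.filter (fun j => a j - 1 < 1)).card := by omega
        obtain ⟨j, hj⟩ := Finset.card_pos.mp h5
        simp only [Finset.mem_filter, Finset.mem_univ, true_and] at hj
        have := hmin j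
        omega
      · have h4 := h2 (Tuple.sort a i) (Finset.mem_univ _)
        omega
    · intro i hi
      by_contra hcon
      push Not at hcon
      have h3 := h1 i.val hi i.isLt
      have h4 : Finset.univ.filter (fun j => a j - 1 < i.val) ⊆
          (Finset.Iio i).image (Tuple.sort a) := by
        intro j hj
        simp only [Finset.mem_filter, Finset.mem_univ, true_and] at hj
        refine Finset.mem_image.mpr ⟨(Tuple.sort a).symm j, ?_, by simp⟩
        rw [Finset.mem_Iio]
        by_contra h5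
        push Not at h5
        have h6 : (a ∘ Tuple.sort a) i ≤ (a ∘ Tuple.sort a) ((Tuple.sort a).symm j) :=
          Tuple.monotone_sort a h5
        simp only [Function.comp_apply, Equiv.apply_symm_apply] at h6
        omega
      have h5 := Finset.card_le_card h4
      rw [Finset.card_image_of_injective _ (Tuple.sort a).injective, Fin.card_Iio] at h5
      omega

/-- the finset of uprooted trees, as pairs (root, parent function) -/
noncomputable def UT (n : ℕ) : Finset (Fin n × (Fin n → Fin n)) :=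
  univ.filter fun x => Fst univ {x.1} x.2 ∧ ∀ v ∈ (univ : Finset (Fin n)), v ≠ x.1 → x.2 v = x.1 →
    v ∈ univ.filter (· < x.1)

lemma UU_eq (n : ℕ) (q : ℝ) :
    UU q (univ : Finset (Fin n)) = ∑ x ∈ UT n, q ^ inv (cut x.1 x.2) := by
  unfold UU UT W
  rw [Finset.sum_filter, ← Finset.univ_product_univ, Finset.sum_product]
  refine Finset.sum_congr rfl fun r _ => ?_
  rw [← root_bij (fun p => q ^ inv p) (Finset.mem_univ r), Finset.sum_filter]
  refine Finset.sum_congr rfl fun p _ => ?_
  congr

lemma tree_count (n k : ℕ) :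
    Nat.card {T : RootedTree n // Uprooted T ∧ surfaceInversions T = k}
      = ((UT n).filter fun x => inv (cut x.1 x.2) = k).card := by
  have hsurf : ∀ T : RootedTree n, surfaceInversions T = inv (cut T.root T.parent) := by
    intro T
    unfold surfaceInversions inv
    rw [Nat.card_eq_fintype_card, Fintype.card_subtype]
    congr 1
    ext ⟨α, β⟩
    simp only [mem_filter, mem_univ, true_and]
    constructor
    · rintro ⟨h1, _, _, h2, h3⟩
      exact ⟨h3, (desc_cut T.parent_root h1).mp h2⟩
    · rintro ⟨h1, h2⟩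
      have hF : Fst univ {T.root} T.parent := by
        refine ⟨fun _ _ => mem_univ _, fun v hv => absurd (mem_univ v) hv, fun v => ?_,
          fun v _ hfix => ?_⟩
        · obtain ⟨j, hj⟩ := T.reach v
          exact ⟨j, by rw [hj, T.parent_root]⟩
        · obtain ⟨j, hj⟩ := T.reach v
          rw [iter_fix hfix] at hj
          simp [hj]
      by_cases hβ : β = T.root
      · exfalso
        obtain ⟨j, hj⟩ := h2
        have hc : cut T.root T.parent β = β := by
          unfold cut; rw [hβ, if_pos T.parent_root]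
        rw [iter_fix hc] at hj
        rw [hj] at h1
        exact lt_irrefl _ h1
      · have hα : α ≠ T.root := by
          rintro rfl
          obtain ⟨j, hj⟩ := h2
          exact cut_no_root hF (mem_univ _) hβ j hj
        exact ⟨hα, hβ, ne_of_lt h1, (desc_cut T.parent_root hα).mpr h2, h1⟩
  rw [← Fintype.card_coe, ← Nat.card_eq_fintype_card]
  refine Nat.card_congr ?_
  refine
    { toFun := fun T => ⟨(T.1.root, T.1.parent), ?_⟩
      invFun := fun x => ⟨⟨x.1.1, x.1.2, ?_, ?_⟩, ?_, ?_⟩
      left_inv := ?_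
      right_inv := ?_ }
  · obtain ⟨T, hU, hk⟩ := T
    simp only [UT, mem_filter, mem_univ, true_and]
    refine ⟨⟨⟨fun _ _ => mem_univ _, fun v hv => absurd (mem_univ v) hv, fun v => ?_,
      fun v _ hfix => ?_⟩, fun v _ h1 h2 => hU v h1 h2⟩, by rw [← hsurf]; exact hk⟩
    · obtain ⟨j, hj⟩ := T.reach v
      exact ⟨j, by rw [hj, T.parent_root]⟩
    · obtain ⟨j, hj⟩ := T.reach v
      rw [iter_fix hfix] at hj
      simp [hj]
  · have hx := x.2
    simp only [UT, mem_filter, mem_univ, true_and] at hx
    exact hx.1.1.single_fix (mem_univ _)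
  · have hx := x.2
    simp only [UT, mem_filter, mem_univ, true_and] at hx
    exact fun v => hx.1.1.single_root (mem_univ v)
  · have hx := x.2
    simp only [UT, mem_filter, mem_univ, true_and] at hx
    exact fun v h1 h2 => hx.1.2 v trivial h1 h2
  · have hx := x.2
    simp only [mem_filter] at hx
    rw [hsurf]
    exact hx.2
  · rintro ⟨T, hT⟩
    rfl
  · rintro ⟨⟨r, p⟩, hx⟩
    rfl

lemma pf_count {n : ℕ} (hn : 1 ≤ n) (k : ℕ) :
    Nat.card {a : Fin n → ℕ // IsSpherical n a ∧ (∑ i, a i) + k = n.choose 2 + 1}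
      = (((Fs (univ : Finset (Fin n)) (range (univ : Finset (Fin n)).card)).filter
          (Prm univ)).filter fun b => (∑ i, b i) + k = (n - 1).choose 2).card := by
  have hch : n.choose 2 + 1 = (n - 1).choose 2 + n := by
    obtain ⟨m, rfl⟩ : ∃ m, n = m + 1 := ⟨n - 1, by omega⟩
    rw [Nat.choose_succ_succ' m 1, Nat.choose_one_right, Nat.add_sub_cancel]
    ring
  rw [← Fintype.card_coe, ← Nat.card_eq_fintype_card]
  refine Nat.card_congr ?_
  refine
    { toFun := fun a => ⟨fun j => a.1 j - 1, ?_⟩
      invFun := fun b => ⟨fun j => b.1 j + 1, ?_, ?_⟩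
      left_inv := ?_
      right_inv := ?_ }
  · obtain ⟨a, ha, hsum⟩ := a
    rw [spherical_iff hn] at ha
    simp only [mem_filter, mem_Fs]
    refine ⟨⟨⟨fun j hj => by simpa using ha.2.2 j hj, fun j hj => absurd (mem_univ j) hj⟩,
      ha.2⟩, ?_⟩
    have h1 : ∑ i, a i = (∑ i, (a i - 1)) + n := by
      have : ∑ i : Fin n, a i = ∑ i : Fin n, ((a i - 1) + 1) :=
        Finset.sum_congr rfl fun i _ => by have := ha.1 i; omega
      rw [this, Finset.sum_add_distrib]
      simp
    omega
  · have hb := b.2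
    simp only [mem_filter, mem_Fs] at hb
    rw [spherical_iff hn]
    refine ⟨fun j => by omega, ?_⟩
    have : (fun j => b.1 j + 1 - 1) = b.1 := by funext j; simp
    rw [this]
    exact hb.1.2
  · have hb := b.2
    simp only [mem_filter, mem_Fs] at hb
    rw [Finset.sum_add_distrib]
    simp only [Finset.sum_const, Finset.card_univ, Fintype.card_fin, smul_eq_mul, mul_one]
    have := hb.2
    omega
  · rintro ⟨a, ha, hsum⟩
    rw [spherical_iff hn] at ha
    apply Subtype.ext
    funext j
    have := ha.1 j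
    simp only
    omega
  · rintro ⟨b, hb⟩
    apply Subtype.ext
    funext j
    simp

open Polynomial in
lemma poly_count {A B : Type} (s : Finset A) (t : Finset B) (e : A → ℕ) (f : B → ℕ) (c K : ℕ)
    (hK : ∀ x ∈ t, f x ≤ K)
    (h : ∀ y : ℝ, 0 < y → y < 1 → ∑ b ∈ s, y ^ e b = y ^ c * ∑ x ∈ t, (y⁻¹) ^ f x) (k : ℕ)
    (hk : k ≤ K) :
    (s.filter fun b => e b + k = c).card = (t.filter fun x => f x = k).card := by
  have hpoly : (∑ b ∈ s, (X : ℝ[X]) ^ (e b + K)) = ∑ x ∈ t, (X : ℝ[X]) ^ (c + K - f x) := by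
    apply Polynomial.eq_of_infinite_eval_eq
    refine Set.Infinite.mono ?_ (Set.Ioo_infinite (zero_lt_one (α := ℝ)))
    rintro y ⟨hy0, hy1⟩
    simp only [Set.mem_ofPred_eq, Polynomial.eval_finsetSum, Polynomial.eval_pow,
      Polynomial.eval_X]
    have h1 := h y hy0 hy1
    have hy : y ≠ 0 := ne_of_gt hy0
    have h2 : ∑ b ∈ s, y ^ (e b + K) = (∑ b ∈ s, y ^ e b) * y ^ K := by
      rw [Finset.sum_mul]
      exact Finset.sum_congr rfl fun b _ => by rw [pow_add]
    rw [h2, h1, mul_assoc, Finset.sum_mul, Finset.mul_sum]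
    refine Finset.sum_congr rfl fun x hx => ?_
    have h3 := hK x hx
    have h4 : c + K - f x = c + (K - f x) := by omega
    rw [h4, pow_add]
    congr 1
    have h5 : K = f x + (K - f x) := by omega
    conv_lhs => rw [h5]
    rw [pow_add, ← mul_assoc, inv_pow, inv_mul_cancel₀ (pow_ne_zero _ hy), one_mul]
  have hcoef := congrArg (fun P => Polynomial.coeff P (c + K - k)) hpoly
  simp only [Polynomial.finsetSum_coeff, Polynomial.coeff_X_pow] at hcoef
  rw [← Finset.sum_filter, ← Finset.sum_filter] at hcoef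
  simp only [Finset.sum_const, nsmul_eq_mul, mul_one] at hcoef
  have hcoef' := Nat.cast_injective (R := ℝ) hcoef
  have e1 : (s.filter fun b => e b + k = c) = s.filter (fun b => c + K - k = e b + K) := by
    refine Finset.filter_congr fun b _ => ?_
    omega
  have e2 : (t.filter fun x => f x = k) = t.filter (fun x => c + K - k = c + K - f x) := by
    refine Finset.filter_congr fun x hx => ?_
    have := hK x hx
    omega
  rw [e1, e2]
  exact hcoef'

/-- For every `n ≥ 1` and `k ≥ 0`, the number of spherical parking functions of length `n` and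
degree `n(n-1)/2 - k + 1` equals the number of uprooted trees on `[n]` with exactly `k` surface
inversions. -/
theorem result : ∀ n : ℕ, 1 ≤ n → ∀ k : ℕ,
    Nat.card {a : Fin n → ℕ // IsSpherical n a ∧ (∑ i, a i) + k = n.choose 2 + 1}
      = Nat.card {T : RootedTree n // Uprooted T ∧ surfaceInversions T = k} := by
  intro n hn k
  rw [pf_count hn, tree_count]
  refine poly_count _ _ (fun b : Fin n → ℕ => ∑ i, b i)
    (fun x : Fin n × (Fin n → Fin n) => inv (cut x.1 x.2)) ((n - 1).choose 2)
    ((univ : Finset (Fin n × Fin n)).card + k) ?_ ?_ k (by omega)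
  · intro x _
    have : inv (cut x.1 x.2) ≤ (univ : Finset (Fin n × Fin n)).card :=
      Finset.card_le_card (Finset.filter_subset _ _)
    omega
  · intro y hy0 hy1
    rw [← UU_eq]
    have : Nonempty (Fin n) := ⟨⟨0, hn⟩⟩
    have h := PP_eq_PT hy0 hy1 _ (univ : Finset (Fin n)) rfl Finset.univ_nonempty
    unfold PP PT at h
    simp only [Finset.card_univ, Fintype.card_fin] at h ⊢
    rw [← h]
    refine Finset.sum_congr rfl fun b _ => ?_
    unfold wt
    rw [Finset.prod_pow_eq_pow_sum]

end Pool.Agent.Results.MP_dc922b_co.UprootedSpherical
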